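import Mathlib
import Pool.Agent.H964.CW.Stm

/-!
# Task SWP (helper213): exchange of the coordinates
-/

set_option autoImplicit false

open MeasureTheory ProbabilityTheory Filter Finset

namespace Pool.Agent.H213.CW

open Pool.Agent.H964.QC Pool.Agent.H964.CW

variable {C0 : ℝ} {N0 M : ℕ} [NeZero M]

theorem K_swap {W : Wlk (ZMod M × ZMod M) C0 N0} (hW : IsTor W) (n : ℕ) (x y : ZMod M × ZMod M) :
    W.K n x.swap y.swap = W.K n x y := by
  rw [hW.K_eq, hW.K_eq]
  simp only [Prod.fst_swap, Prod.snd_swap]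
  exact mul_comm _ _

theorem K_swap' {W : Wlk (ZMod M × ZMod M) C0 N0} (hW : IsTor W) (n : ℕ) (x y : ZMod M × ZMod M) :
    W.K n x y.swap = W.K n x.swap y := by
  have h := K_swap hW n x.swap y
  rw [Prod.swap_swap] at h
  exact h

theorem sum_swap (f : ZMod M × ZMod M → ℝ) : ∑ v : ZMod M × ZMod M, f v.swap = ∑ v, f v :=
  Equiv.sum_comp (Equiv.prodComm (ZMod M) (ZMod M)) f

theorem Zr_swap {W : Wlk (ZMod M × ZMod M) C0 N0} (hW : IsTor W) (x : ℕ → ZMod M × ZMod M → ℝ) :
    ∀ (T : ℕ) (v : ZMod M × ZMod M),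
      Zr W (fun (n : ℕ) (v : ZMod M × ZMod M) => x n v.swap) T v = Zr W x T v.swap := by
  intro T
  induction T with
  | zero => intro v; simp only [Zr]
  | succ j ih =>
    intro v
    simp only [Zr]
    rw [← sum_swap (fun z => W.K 1 v.swap z * ((1 + x (j + 1) z) * Zr W x j z))]
    refine Finset.sum_congr rfl fun z _ => ?_
    rw [ih z, K_swap hW]

theorem wt_swap {W : Wlk (ZMod M × ZMod M) C0 N0} (hW : IsTor W) (w : ZMod M × ZMod M → ℝ) (n : ℕ)
    (z : ZMod M × ZMod M) : wt W (fun v : ZMod M × ZMod M => w v.swap) n z = wt W w n z.swap := by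
  unfold wt
  rw [← sum_swap (fun x => w x * W.K n x z.swap)]
  refine Finset.sum_congr rfl fun x _ => ?_
  rw [K_swap hW]

theorem t_SWP : S_SWP := by
  intro C0 N0 M _ W hW
  refine ⟨?_, ?_, ?_⟩
  · intro x w T
    rw [← sum_swap (fun v => w v * Zr W x T v)]
    refine Finset.sum_congr rfl fun v _ => ?_
    rw [Zr_swap hW x T v]
  · intro w n
    unfold ov
    rw [← sum_swap (fun z => (wt W w n z) ^ 2)]
    refine Finset.sum_congr rfl fun z _ => ?_
    rw [wt_swap hW]
  · intro Ω _ P _ s2 κ η h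
    refine ⟨fun n v => h.meas n v.swap, ?_, fun n v => h.gt n v.swap, fun n v => h.int4 n v.swap,
      fun n v => h.m1 n v.swap, fun n v => h.m2 n v.swap, fun n v => h.m3 n v.swap,
      fun n v => h.m4 n v.swap⟩
    have hinj : Function.Injective (fun i : ℕ × (ZMod M × ZMod M) => (i.1, i.2.swap)) := by
      rintro ⟨a, b⟩ ⟨a', b'⟩ hab
      simp only [Prod.mk.injEq] at hab
      obtain ⟨h1, h2⟩ := hab
      rw [h1, Prod.swap_injective h2]
    exact h.indep.precomp hinj

end Pool.Agent.H213.CW
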